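import Mathlib

set_option autoImplicit false

namespace Pool.Agent.H.MP_c3451b_al

abbrev X := ℕ → Bool
abbrev P := Equiv.Perm X

def tl (x : X) : X := fun j => x (j + 1)
def cs (s : Bool) (x : X) : X := fun j => Nat.casesOn j s x

@[simp] lemma cs_zero (s : Bool) (x : X) : cs s x 0 = s := rfl
@[simp] lemma cs_succ (s : Bool) (x : X) (j : ℕ) : cs s x (j + 1) = x j := rfl
@[simp] lemma tl_cs (s : Bool) (x : X) : tl (cs s x) = x := rfl
lemma cs_tl (x : X) : cs (x 0) (tl x) = x := by
  funext j; cases j <;> rfl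

def nodeF (g h : P) (x : X) : X := cs (x 0) (if x 0 = true then h (tl x) else g (tl x))

def node (g h : P) : P where
  toFun := nodeF g h
  invFun := nodeF g⁻¹ h⁻¹
  left_inv x := by
    unfold nodeF
    conv_rhs => rw [← cs_tl x]
    by_cases hx : x 0 = true <;> simp [hx]
  right_inv x := by
    unfold nodeF
    conv_rhs => rw [← cs_tl x]
    by_cases hx : x 0 = true <;> simp [hx]

lemma node_apply (g h : P) (x : X) :
    node g h x = cs (x 0) (if x 0 = true then h (tl x) else g (tl x)) := rfl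

lemma node_mul (g h g' h' : P) : node g h * node g' h' = node (g * g') (h * h') := by
  ext1 x
  simp only [Equiv.Perm.mul_apply, node_apply, cs_zero, tl_cs]
  by_cases hx : x 0 = true <;> simp [hx]

lemma node_one : node 1 1 = 1 := by
  ext1 x
  rw [node_apply]
  simp [cs_tl]

lemma node_inj {g h g' h' : P} (e : node g h = node g' h') : g = g' ∧ h = h' := by
  constructor
  · ext1 x
    have := congrArg (fun f : P => tl (f (cs false x))) e
    simpa [node_apply] using this
  · ext1 x
    have := congrArg (fun f : P => tl (f (cs true x))) e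
    simpa [node_apply] using this

def nodeH : P × P →* P where
  toFun p := node p.1 p.2
  map_one' := node_one
  map_mul' p q := (node_mul _ _ _ _).symm

lemma node_inv (g h : P) : (node g h)⁻¹ = node g⁻¹ h⁻¹ :=
  (map_inv nodeH (g, h)).symm

def tau : P →* P := nodeH.comp (MonoidHom.inr P P)
lemma tau_apply (g : P) : tau g = node 1 g := rfl

def aF (x : X) : X := cs (!x 0) (tl x)

def a : P := Function.Involutive.toPerm aF (by
  intro x
  unfold aF
  conv_rhs => rw [← cs_tl x]
  simp)

lemma a_apply (x : X) : a x = cs (!x 0) (tl x) := rfl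

lemma a_mul_a : a * a = 1 := by
  ext1 x
  simp only [Equiv.Perm.mul_apply, a_apply, cs_zero, tl_cs, Bool.not_not, cs_tl]
  rfl

lemma a_node (g h : P) : a * node g h = node h g * a := by
  ext1 x
  simp only [Equiv.Perm.mul_apply, a_apply, node_apply, cs_zero, tl_cs]
  cases hx : x 0 <;> simp

lemma a_spec (x : X) (j : ℕ) : a x j ≠ x j ↔ j = 0 := by
  cases j with
  | zero => simp [a_apply]
  | succ j => simp [a_apply, tl]

def Cond (Q : ℕ → Prop) (x : X) (j : ℕ) : Prop :=
  ∃ k, j = k + 1 ∧ x k = false ∧ (∀ i < k, x i = true) ∧ Q k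

open Classical in
noncomputable def flF (Q : ℕ → Prop) (x : X) : X := fun j => if Cond Q x j then !x j else x j

lemma flF_low (Q : ℕ → Prop) (x : X) (k : ℕ) (h : ∀ i < k, x i = true) (j : ℕ) (hj : j ≤ k) :
    flF Q x j = x j := by
  unfold flF
  rw [if_neg]
  rintro ⟨m, rfl, hm, -, -⟩
  have := h m (by omega)
  simp [this] at hm

lemma cond_flF (Q R : ℕ → Prop) (x : X) (j : ℕ) : Cond R (flF Q x) j ↔ Cond R x j := by
  have key : ∀ k, (∀ i < k, flF Q x i = true) → ∀ i < k, x i = true := by
    intro k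
    induction k with
    | zero => intro _ i hi; omega
    | succ k ih =>
      intro h i hi
      have h1 := ih (fun i hi => h i (by omega))
      rw [← flF_low Q x k h1 i (by omega)]
      exact h i hi
  constructor
  · rintro ⟨k, rfl, h1, h2, h3⟩
    have h4 := key k h2
    exact ⟨k, rfl, by rw [← flF_low Q x k h4 k le_rfl]; exact h1, h4, h3⟩
  · rintro ⟨k, rfl, h1, h2, h3⟩
    exact ⟨k, rfl, by rw [flF_low Q x k h2 k le_rfl]; exact h1,
      fun i hi => by rw [flF_low Q x k h2 i hi.le]; exact h2 i hi, h3⟩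

noncomputable def fl (Q : ℕ → Prop) : P := Function.Involutive.toPerm (flF Q) (by
  intro x
  funext j
  by_cases h : Cond Q x j
  · have h' := (cond_flF Q Q x j).2 h
    show (open Classical in if Cond Q (flF Q x) j then !(flF Q x j) else flF Q x j) = x j
    rw [if_pos h']
    simp [flF, h]
  · have h' : ¬ Cond Q (flF Q x) j := fun e => h ((cond_flF Q Q x j).1 e)
    show (open Classical in if Cond Q (flF Q x) j then !(flF Q x j) else flF Q x j) = x j
    rw [if_neg h']
    simp [flF, h])

lemma fl_apply (Q : ℕ → Prop) (x : X) : fl Q x = flF Q x := rfl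

lemma fl_spec (Q : ℕ → Prop) (x : X) (j : ℕ) : fl Q x j ≠ x j ↔ Cond Q x j := by
  rw [fl_apply]
  by_cases h : Cond Q x j <;> simp [flF, h]

lemma ext_spec {f g : P} (h : ∀ x j, f x j ≠ x j ↔ g x j ≠ x j) : f = g := by
  ext x j
  have := h x j
  revert this
  cases f x j <;> cases g x j <;> cases x j <;> simp

lemma fl_congr {Q R : ℕ → Prop} (h : ∀ k, Q k ↔ R k) : fl Q = fl R := by
  have : Q = R := funext fun k => propext (h k)
  rw [this]

lemma fl_mul_self (Q : ℕ → Prop) : fl Q * fl Q = 1 := by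
  ext1 x
  exact (fl Q).left_inv x

lemma fl_mul (Q R : ℕ → Prop) : fl Q * fl R = fl (fun k => Xor' (Q k) (R k)) := by
  ext x j
  simp only [Equiv.Perm.mul_apply, fl_apply]
  have e := cond_flF R Q x j
  have u : ∀ k m, j = k + 1 → j = m + 1 → k = m := by omega
  by_cases h1 : Cond Q x j <;> by_cases h2 : Cond R x j
  · have : ¬ Cond (fun k => Xor' (Q k) (R k)) x j := by
      rintro ⟨k, hk, -, -, h⟩
      obtain ⟨m, hm, -, -, h1⟩ := h1
      obtain ⟨n, hn, -, -, h2⟩ := h2
      have := u k m hk hm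
      have := u k n hk hn
      subst_vars
      rcases h with h | h <;> tauto
    simp only [flF] at e ⊢
    simp [e, h1, h2, this]
  · have : Cond (fun k => Xor' (Q k) (R k)) x j := by
      obtain ⟨m, hm, h3, h4, h1⟩ := h1
      exact ⟨m, hm, h3, h4, Or.inl ⟨h1, fun h => h2 ⟨m, hm, h3, h4, h⟩⟩⟩
    simp only [flF] at e ⊢
    simp [e, h1, h2, this]
  · have : Cond (fun k => Xor' (Q k) (R k)) x j := by
      obtain ⟨m, hm, h3, h4, h2⟩ := h2
      exact ⟨m, hm, h3, h4, Or.inr ⟨h2, fun h => h1 ⟨m, hm, h3, h4, h⟩⟩⟩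
    simp only [flF] at e ⊢
    simp [e, h1, h2, this]
  · have : ¬ Cond (fun k => Xor' (Q k) (R k)) x j := by
      rintro ⟨k, hk, h3, h4, h | h⟩
      · exact h1 ⟨k, hk, h3, h4, h.1⟩
      · exact h2 ⟨k, hk, h3, h4, h.1⟩
    simp only [flF] at e ⊢
    simp [e, h1, h2, this]

lemma fl_node (Q : ℕ → Prop) (g : P) (hg : (Q 0 ∧ g = a) ∨ (¬ Q 0 ∧ g = 1)) :
    fl Q = node g (fl fun k => Q (k + 1)) := by
  apply ext_spec
  intro x j
  rw [fl_spec, node_apply]
  cases j with
  | zero => simp [Cond]
  | succ j =>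
    rw [cs_succ]
    by_cases hx : x 0 = true
    · rw [if_pos hx]
      have := fl_spec (fun k => Q (k + 1)) (tl x) j
      change _ ≠ x (j + 1) ↔ _ at this
      rw [this]
      constructor
      · rintro ⟨k, hk, h1, h2, h3⟩
        cases k with
        | zero => simp [hx] at h1
        | succ k => exact ⟨k, by omega, h1, fun i hi => h2 (i + 1) (by omega), h3⟩
      · rintro ⟨k, hk, h1, h2, h3⟩
        refine ⟨k + 1, by omega, h1, fun i hi => ?_, h3⟩
        cases i with
        | zero => exact hx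
        | succ i => exact h2 i (by omega)
    · rw [if_neg hx]
      have hx' : x 0 = false := by simpa using hx
      have hc : Cond Q x (j + 1) ↔ j = 0 ∧ Q 0 := by
        constructor
        · rintro ⟨k, hk, h1, h2, h3⟩
          cases k with
          | zero => exact ⟨by omega, h3⟩
          | succ k => exact absurd (h2 0 (by omega)) hx
        · rintro ⟨rfl, h⟩
          exact ⟨0, rfl, hx', fun i hi => by omega, h⟩
      rw [hc]
      rcases hg with ⟨h, rfl⟩ | ⟨h, rfl⟩
      · have := a_spec (tl x) j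
        change _ ≠ x (j + 1) ↔ _ at this
        rw [this]; simp [h]
      · simp [h, tl]

noncomputable def b : P := fl fun k => k % 3 ≠ 2
noncomputable def c : P := fl fun k => k % 3 ≠ 1
noncomputable def d : P := fl fun k => k % 3 ≠ 0

lemma b_eq : b = node a c := by
  rw [b, fl_node _ a (Or.inl ⟨by norm_num, rfl⟩), c]
  exact congrArg _ (fl_congr fun k => by omega)
lemma c_eq : c = node a d := by
  rw [c, fl_node _ a (Or.inl ⟨by norm_num, rfl⟩), d]
  exact congrArg _ (fl_congr fun k => by omega)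
lemma d_eq : d = node 1 b := by
  rw [d, fl_node _ 1 (Or.inr ⟨by norm_num, rfl⟩), b]
  exact congrArg _ (fl_congr fun k => by omega)

lemma bb : b * b = 1 := fl_mul_self _
lemma cc : c * c = 1 := fl_mul_self _
lemma dd : d * d = 1 := fl_mul_self _
lemma bc : b * c = d := by
  rw [b, c, d, fl_mul]; refine fl_congr fun k => ?_
  rcases (by omega : k % 3 = 0 ∨ k % 3 = 1 ∨ k % 3 = 2) with h | h | h <;> simp [h, Xor']
lemma cb : c * b = d := by
  rw [b, c, d, fl_mul]; refine fl_congr fun k => ?_
  rcases (by omega : k % 3 = 0 ∨ k % 3 = 1 ∨ k % 3 = 2) with h | h | h <;> simp [h, Xor']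
lemma bd : b * d = c := by
  rw [b, c, d, fl_mul]; refine fl_congr fun k => ?_
  rcases (by omega : k % 3 = 0 ∨ k % 3 = 1 ∨ k % 3 = 2) with h | h | h <;> simp [h, Xor']
lemma db : d * b = c := by
  rw [b, c, d, fl_mul]; refine fl_congr fun k => ?_
  rcases (by omega : k % 3 = 0 ∨ k % 3 = 1 ∨ k % 3 = 2) with h | h | h <;> simp [h, Xor']
lemma cd : c * d = b := by
  rw [b, c, d, fl_mul]; refine fl_congr fun k => ?_
  rcases (by omega : k % 3 = 0 ∨ k % 3 = 1 ∨ k % 3 = 2) with h | h | h <;> simp [h, Xor']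
lemma dc : d * c = b := by
  rw [b, c, d, fl_mul]; refine fl_congr fun k => ?_
  rcases (by omega : k % 3 = 0 ∨ k % 3 = 1 ∨ k % 3 = 2) with h | h | h <;> simp [h, Xor']

end Pool.Agent.H.MP_c3451b_al
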