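import Pool.Agent.H.MP_c3451b_al.A

set_option autoImplicit false

namespace Pool.Agent.H.MP_c3451b_al

inductive L
  | a | b | c | d
  deriving DecidableEq

noncomputable def L.ev : L → P
  | .a => MP_c3451b_al.a
  | .b => MP_c3451b_al.b
  | .c => MP_c3451b_al.c
  | .d => MP_c3451b_al.d

noncomputable def ev : List L → P
  | [] => 1
  | l :: w => l.ev * ev w

lemma ev_append (u w : List L) : ev (u ++ w) = ev u * ev w := by
  induction u with
  | nil => simp [ev]
  | cons l u ih => simp [ev, ih, mul_assoc]

lemma L.sq (l : L) : l.ev * l.ev = 1 := by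
  cases l
  exacts [a_mul_a, bb, cc, dd]

lemma ev_reverse (w : List L) : ev w.reverse = (ev w)⁻¹ := by
  induction w with
  | nil => simp [ev]
  | cons l w ih =>
    rw [List.reverse_cons, ev_append, ih]
    simp only [ev, mul_one, mul_inv_rev]
    rw [inv_eq_of_mul_eq_one_right (L.sq l)]

def sec : List L → Bool × List L × List L
  | [] => (false, [], [])
  | .a :: w => (!(sec w).1, (sec w).2.2, (sec w).2.1)
  | .b :: w => ((sec w).1, .a :: (sec w).2.1, .c :: (sec w).2.2)
  | .c :: w => ((sec w).1, .a :: (sec w).2.1, .d :: (sec w).2.2)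
  | .d :: w => ((sec w).1, (sec w).2.1, .b :: (sec w).2.2)

lemma sec_spec (w : List L) :
    ev w = node (ev (sec w).2.1) (ev (sec w).2.2) * (cond (sec w).1 a 1) := by
  induction w with
  | nil => simp [ev, sec, node_one]
  | cons l w ih =>
    cases l
    · simp only [ev, sec, L.ev]
      rw [ih, ← mul_assoc, a_node, mul_assoc]
      cases (sec w).1 <;> simp [a_mul_a]
    · simp only [ev, sec, L.ev]
      rw [← node_mul, ← b_eq, mul_assoc, ← ih]
    · simp only [ev, sec, L.ev]
      rw [← node_mul, ← c_eq, mul_assoc, ← ih]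
    · simp only [ev, sec, L.ev]
      rw [← one_mul (ev (sec w).2.1), ← node_mul, ← d_eq, mul_assoc, ← ih]

def push : L → List L → List L
  | .a, .a :: w => w
  | .b, .b :: w => w
  | .c, .c :: w => w
  | .d, .d :: w => w
  | .b, .c :: w => .d :: w
  | .c, .b :: w => .d :: w
  | .b, .d :: w => .c :: w
  | .d, .b :: w => .c :: w
  | .c, .d :: w => .b :: w
  | .d, .c :: w => .b :: w
  | l, w => l :: w

lemma push_spec (l : L) (w : List L) : ev (push l w) = l.ev * ev w := by
  cases w with
  | nil => cases l <;> simp [push, ev]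
  | cons m w =>
    cases l <;> cases m <;>
      simp [push, ev, L.ev, ← mul_assoc, a_mul_a, bb, cc, dd, bc, cb, bd, db, cd, dc]

def red : List L → List L
  | [] => []
  | l :: w => push l (red w)

lemma red_spec (w : List L) : ev (red w) = ev w := by
  induction w with
  | nil => rfl
  | cons l w ih => rw [red, push_spec, ih, ev]

def triv : ℕ → List L → Bool
  | 0, w => (red w).isEmpty
  | n + 1, w => (red w).isEmpty ||
      (!(sec (red w)).1 && triv n (sec (red w)).2.1 && triv n (sec (red w)).2.2)

lemma triv_spec (n : ℕ) : ∀ w, triv n w = true → ev w = 1 := by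
  have h0 : ∀ w, (red w).isEmpty = true → ev w = 1 := by
    intro w h
    rw [← red_spec, List.isEmpty_iff.1 h, ev]
  induction n with
  | zero => exact h0
  | succ n ih =>
    intro w h
    simp only [triv, Bool.or_eq_true, Bool.and_eq_true, Bool.not_eq_true'] at h
    rcases h with h | ⟨⟨h1, h2⟩, h3⟩
    · exact h0 w h
    · rw [← red_spec, sec_spec, ih _ h2, ih _ h3, h1]
      simp [node_one]

lemma ev_eq (u w : List L) (h : triv 6 (u ++ w.reverse) = true) : ev u = ev w := by
  have := triv_spec _ _ h
  rw [ev_append, ev_reverse] at this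
  exact mul_inv_eq_one.1 this

lemma ev_node (w u0 u1 : List L) (h : (sec w).1 = false)
    (h0 : triv 6 ((sec w).2.1 ++ u0.reverse) = true)
    (h1 : triv 6 ((sec w).2.2 ++ u1.reverse) = true) : ev w = node (ev u0) (ev u1) := by
  rw [sec_spec, h, ev_eq _ _ h0, ev_eq _ _ h1]
  simp

def G : Subgroup P := Subgroup.closure ({a, b, c, d} : Set P)

lemma ev_mem (w : List L) : ev w ∈ G := by
  induction w with
  | nil => exact G.one_mem
  | cons l w ih =>
    refine G.mul_mem (Subgroup.subset_closure ?_) ih
    cases l <;> simp [L.ev]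

lemma exists_word {x : P} (hx : x ∈ G) : ∃ w, ev w = x := by
  induction hx using Subgroup.closure_induction with
  | mem x hx =>
    simp only [Set.mem_insert_iff, Set.mem_singleton_iff] at hx
    rcases hx with rfl | rfl | rfl | rfl
    exacts [⟨[.a], by simp [ev, L.ev]⟩, ⟨[.b], by simp [ev, L.ev]⟩, ⟨[.c], by simp [ev, L.ev]⟩,
      ⟨[.d], by simp [ev, L.ev]⟩]
  | one => exact ⟨[], rfl⟩
  | mul x y _ _ hx hy =>
    obtain ⟨u, rfl⟩ := hx
    obtain ⟨w, rfl⟩ := hy
    exact ⟨u ++ w, ev_append u w⟩
  | inv x _ hx =>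
    obtain ⟨u, rfl⟩ := hx
    exact ⟨u.reverse, ev_reverse u⟩

lemma sec_len (w : List L) : (sec w).2.1.length ≤ w.length ∧ (sec w).2.2.length ≤ w.length ∧
    (L.a ∈ w → (sec w).2.1.length < w.length ∧ (sec w).2.2.length < w.length) := by
  induction w with
  | nil => simp [sec]
  | cons l w ih =>
    obtain ⟨h1, h2, h3⟩ := ih
    cases l <;> simp only [sec, List.length_cons, List.mem_cons] <;>
      refine ⟨by omega, by omega, fun h => ?_⟩
    · omega
    all_goals
      have := h3 (h.resolve_left (by decide))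
      omega

lemma sec_noa (w : List L) (h : L.a ∉ w) : ev (sec w).2.1 = 1 ∨ ev (sec w).2.1 = a := by
  induction w with
  | nil => simp [sec, ev]
  | cons l w ih =>
    have ih := ih (fun e => h (List.mem_cons_of_mem _ e))
    cases l
    · simp at h
    · rcases ih with e | e <;> simp [sec, ev, L.ev, e, a_mul_a]
    · rcases ih with e | e <;> simp [sec, ev, L.ev, e, a_mul_a]
    · simpa [sec] using ih

lemma no_fix {x e : P} (hx : x ∈ G) (h : x = node e x) : e = 1 ∨ e = a := by
  classical
  have hex : ∃ n, ∃ w : List L, w.length = n ∧ ev w = x := by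
    obtain ⟨w, hw⟩ := exists_word hx
    exact ⟨_, w, rfl, hw⟩
  obtain ⟨w, hw, hwx⟩ := Nat.find_spec hex
  have h1 := sec_spec w
  have hp : (sec w).1 = false := by
    by_contra hp
    have hp : (sec w).1 = true := by simpa using hp
    rw [hp, cond_true, hwx, h] at h1
    have := congrArg (fun f : P => f (fun _ => false) 0) h1
    simp [node_apply, a_apply] at this
  rw [hp, hwx] at h1
  simp only [cond_false, mul_one] at h1
  obtain ⟨h2, h3⟩ := node_inj (h.symm.trans h1)
  have ha : L.a ∉ w := by
    intro ha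
    have := ((sec_len w).2.2 ha).2
    exact Nat.find_min hex (hw ▸ this) ⟨_, rfl, h3.symm⟩
  rw [h2]
  exact sec_noa w ha

end Pool.Agent.H.MP_c3451b_al
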