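import Pool.Agent.H.MP_c3451b_al.B

set_option autoImplicit false

namespace Pool.Agent.H.MP_c3451b_al

def wt : List L := [.a, .b, .a, .b]
def wv : List L := [.b, .a, .d, .a, .b, .a, .d, .a]
def ww : List L := [.a, .b, .a, .d, .a, .b, .a, .d]

noncomputable def t : P := ev wt
noncomputable def v : P := ev wv
noncomputable def w : P := ev ww

lemma v_eq : v = node t 1 := ev_node wv wt [] (by decide) (by decide) (by decide)
lemma w_eq : w = node 1 t := ev_node ww [] wt (by decide) (by decide) (by decide)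

lemma tau_v : tau v = w⁻¹ * t * w * t⁻¹ := by
  have := ev_node (ww.reverse ++ wt ++ ww ++ wt.reverse) [] wv (by decide) (by decide) (by decide)
  rw [ev_append, ev_append, ev_append, ev_reverse, ev_reverse] at this
  exact this.symm

lemma tau_w : tau w = w * t⁻¹ * w⁻¹ * t := by
  have := ev_node (ww ++ wt.reverse ++ ww.reverse ++ wt) [] ww (by decide) (by decide) (by decide)
  rw [ev_append, ev_append, ev_append, ev_reverse, ev_reverse] at this
  exact this.symm

def H : Subgroup P := Subgroup.closure ({t, v, w} : Set P)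

lemma t_mem : t ∈ H := Subgroup.subset_closure (by simp)
lemma v_mem : v ∈ H := Subgroup.subset_closure (by simp)
lemma w_mem : w ∈ H := Subgroup.subset_closure (by simp)

lemma H_le : H ≤ G := by
  rw [H, Subgroup.closure_le]
  intro x hx
  simp only [Set.mem_insert_iff, Set.mem_singleton_iff] at hx
  rcases hx with rfl | rfl | rfl <;> exact ev_mem _

lemma tau_mem {x : P} (hx : x ∈ H) : tau x ∈ H := by
  have : H ≤ H.comap tau := by
    conv_lhs => rw [H]
    rw [Subgroup.closure_le]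
    intro x hx
    simp only [Set.mem_insert_iff, Set.mem_singleton_iff] at hx
    rcases hx with rfl | rfl | rfl
    · show tau t ∈ H
      rw [tau_apply, ← w_eq]; exact w_mem
    · show tau v ∈ H
      rw [tau_v]
      exact H.mul_mem (H.mul_mem (H.mul_mem (H.inv_mem w_mem) t_mem) w_mem) (H.inv_mem t_mem)
    · show tau w ∈ H
      rw [tau_w]
      exact H.mul_mem (H.mul_mem (H.mul_mem w_mem (H.inv_mem t_mem)) (H.inv_mem w_mem)) t_mem
  exact this hx

lemma node_mem {x y : P} (hx : x ∈ H) (hy : y ∈ H) : node x y ∈ G := by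
  have ha : a ∈ G := Subgroup.subset_closure (by simp)
  have : node x y = a * tau x * a * tau y := by
    rw [tau_apply, tau_apply, a_node, mul_assoc (node x 1), a_mul_a, mul_one, node_mul]
    simp
  rw [this]
  exact G.mul_mem (G.mul_mem (G.mul_mem ha (H_le (tau_mem hx))) ha) (H_le (tau_mem hy))

def ws : List L := [.a, .c] ++ wt ++ [.c, .a]
noncomputable def s : P := ev ws
noncomputable def u : P := t⁻¹ * v * t

lemma u_eq : u = node s 1 := by
  have := ev_node (wt.reverse ++ wv ++ wt) ws [] (by decide) (by decide) (by decide)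
  rw [ev_append, ev_append, ev_reverse] at this
  exact this

lemma u_mem : u ∈ H := H.mul_mem (H.mul_mem (H.inv_mem t_mem) v_mem) t_mem

noncomputable def e : P := t * s * t⁻¹ * s⁻¹
noncomputable def E : P := v * u * v⁻¹ * u⁻¹

lemma E_eq : E = node e 1 := by
  rw [E, v_eq, u_eq, node_inv, node_inv, node_mul, node_mul, node_mul]
  simp [e]

lemma E_mem : E ∈ H :=
  H.mul_mem (H.mul_mem (H.mul_mem v_mem u_mem) (H.inv_mem v_mem)) (H.inv_mem u_mem)

def we : List L := wt ++ ws ++ wt.reverse ++ ws.reverse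

lemma e_word : e = ev we := by
  rw [we, ev_append, ev_append, ev_append, ev_reverse, ev_reverse]; rfl

lemma node_ne_a (g h : P) : node g h ≠ a := by
  intro q
  have := congrArg (fun f : P => f (fun _ => false) 0) q
  simp [node_apply, a_apply] at this

lemma a_ne_one : a ≠ 1 := by
  rw [← node_one]; exact (node_ne_a 1 1).symm

lemma sec_one (z : List L) (h : ev z = 1) : (sec z).1 = false ∧ ev (sec z).2.1 = 1 := by
  have h1 := sec_spec z
  rw [h] at h1
  cases hp : (sec z).1
  · rw [hp, cond_false, mul_one, ← node_one] at h1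
    exact ⟨rfl, by rw [← (node_inj h1).1]⟩
  · rw [hp, cond_true] at h1
    have := congrArg (fun f : P => f (fun _ => false) 0) h1
    simp [node_apply, a_apply] at this

lemma e_ne : ¬ (e = 1 ∨ e = a) := by
  rw [e_word]
  rintro (h | h)
  · have := (sec_one _ (sec_one _ (sec_one _ (sec_one _ h).2).2).2).1
    revert this
    decide
  · rw [ev_node we (sec we).2.1 (sec we).2.2 (by decide) (by decide) (by decide)] at h
    exact node_ne_a _ _ h

noncomputable def tp : ℕ → P →* P
  | 0 => MonoidHom.id P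
  | n + 1 => tau.comp (tp n)

lemma tp_succ (n : ℕ) (x : P) : tp (n + 1) x = tau (tp n x) := rfl

lemma tp_add (i k : ℕ) (x : P) : tp (i + k) x = tp i (tp k x) := by
  induction i with
  | zero => simp [tp]
  | succ i ih => rw [Nat.add_right_comm, tp_succ, tp_succ, ih]

lemma tp_mem (n : ℕ) {x : P} (hx : x ∈ H) : tp n x ∈ H := by
  induction n with
  | zero => exact hx
  | succ n ih => exact tau_mem ih

lemma tp_comm {i j : ℕ} (h : i < j) : tp j v * tp i u = tp i u * tp j v := by
  obtain ⟨k, rfl⟩ := Nat.exists_eq_add_of_lt h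
  rw [Nat.add_assoc, tp_add, ← map_mul, ← map_mul, tp_succ, tau_apply, u_eq, node_mul, node_mul]
  simp

noncomputable def xs : ℕ → P
  | 0 => 1
  | n + 1 => E * tau (xs n)

lemma xs_mem (n : ℕ) : xs n ∈ H := by
  induction n with
  | zero => exact H.one_mem
  | succ n ih => exact H.mul_mem E_mem (tau_mem ih)

lemma xs_succ (n : ℕ) : xs (n + 1) = xs n * tp n E := by
  induction n with
  | zero => simp [xs, tp]
  | succ n ih =>
    conv_lhs => rw [xs, ih, map_mul, ← mul_assoc]
    rfl

lemma exists_tp (M : Subgroup G) [M.Normal] [M.FiniteIndex] :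
    ∃ i, (⟨tp (i + 1) E, H_le (tp_mem _ E_mem)⟩ : G) ∈ M := by
  let φ := QuotientGroup.mk' M
  let V : ℕ → G := fun i => ⟨tp (i + 1) v, H_le (tp_mem _ v_mem)⟩
  let U : ℕ → G := fun i => ⟨tp (i + 1) u, H_le (tp_mem _ u_mem)⟩
  have key : ∀ i j, i < j → φ (V i) = φ (V j) →
      (⟨tp (i + 1) E, H_le (tp_mem _ E_mem)⟩ : G) ∈ M := by
    intro i j hij h
    have h1 : (⟨tp (i + 1) E, H_le (tp_mem _ E_mem)⟩ : G) = V i * U i * (V i)⁻¹ * (U i)⁻¹ := by
      apply Subtype.ext
      simp [V, U, E]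
    have h2 : V j * U i = U i * V j := Subtype.ext (tp_comm (by omega))
    rw [← QuotientGroup.ker_mk' M, MonoidHom.mem_ker, h1]
    change φ _ = 1
    rw [map_mul, map_mul, map_mul, map_inv, map_inv, h, ← map_mul, h2]
    simp
  obtain ⟨i, j, hij, h⟩ := Finite.exists_ne_map_eq_of_infinite (fun i => φ (V i))
  rcases lt_or_gt_of_ne hij with hl | hl
  · exact ⟨i, key i j hl h⟩
  · exact ⟨j, key j i hl h.symm⟩

noncomputable def al : H →* G :=
  ((nodeH.comp ((MonoidHom.id P).prod tau)).comp H.subtype).codRestrict G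
    (fun x => node_mem x.2 (tau_mem x.2))

noncomputable def be : H →* G :=
  ((nodeH.comp ((MonoidHom.id P).prod (MonoidHom.id P))).comp H.subtype).codRestrict G
    (fun x => node_mem x.2 x.2)

lemma al_apply (x : H) : (al x : P) = node x (tau x) := rfl
lemma be_apply (x : H) : (be x : P) = node x x := rfl

instance : Group.FG H := by
  unfold H
  exact Group.closure_finite_fg _

noncomputable def AA : Fin 2 → Subgroup G := ![al.range, be.range]

lemma AA_fg (i : Fin 2) : (AA i).FG := by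
  fin_cases i
  · exact (Group.fg_iff_subgroup_fg _).1 (Group.fg_range al)
  · exact (Group.fg_iff_subgroup_fg _).1 (Group.fg_range be)

noncomputable def g0 : G := ⟨tau E⁻¹, H_le (tau_mem (H.inv_mem E_mem))⟩

lemma not_prod (f : Fin 2 → G) (hf : ∀ i, f i ∈ AA i) : (List.ofFn f).prod ≠ g0 := by
  obtain ⟨x, hx⟩ : f 0 ∈ al.range := hf 0
  obtain ⟨y, hy⟩ : f 1 ∈ be.range := hf 1
  intro h
  have h1 : (f 0 : P) * f 1 = tau E⁻¹ := by
    have := congrArg Subtype.val h
    simpa [List.ofFn_succ, g0] using this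
  rw [← hx, ← hy, al_apply, be_apply, node_mul, tau_apply E⁻¹] at h1
  obtain ⟨h2, h3⟩ := node_inj h1
  rw [eq_inv_of_mul_eq_one_right h2] at h3
  have h4 : (x : P) = E * tau x := by
    rw [mul_inv_eq_iff_eq_mul] at h3
    rw [h3]; simp
  rw [E_eq, tau_apply, node_mul, mul_one, one_mul] at h4
  exact e_ne (no_fix (H_le x.2) h4)

lemma near (N : Subgroup G) [N.FiniteIndex] :
    ∃ f : Fin 2 → G, (∀ i, f i ∈ AA i) ∧ ∃ m ∈ N, (List.ofFn f).prod * m = g0 := by
  obtain ⟨i, hi⟩ := exists_tp N.normalCore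
  let x : H := ⟨xs i, xs_mem i⟩
  let z : G := ⟨tau (xs i), H_le (tau_mem (xs_mem i))⟩
  refine ⟨![al x, be x⁻¹], ?_, _, N.normalCore_le
    (N.normalCore_normal.conj_mem _ (N.normalCore.inv_mem hi) z), ?_⟩
  · intro j
    fin_cases j
    · exact ⟨x, rfl⟩
    · exact ⟨x⁻¹, rfl⟩
  · apply Subtype.ext
    have h1 : ((al x : G) : P) * (be x⁻¹ : G) = tau (tau (xs i) * (xs i)⁻¹) := by
      rw [al_apply, be_apply, node_mul, tau_apply (tau (xs i) * (xs i)⁻¹)]
      simp [x]
    have h2 : E * tau (xs i) = xs i * tp i E := xs_succ i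
    have h3 : tau (xs i) * (xs i)⁻¹ * (xs i * (tp i E)⁻¹ * (xs i)⁻¹) = E⁻¹ := by
      rw [eq_inv_mul_of_mul_eq h2]
      group
    have h4 := congrArg tau h3
    rw [map_mul, ← h1] at h4
    simpa [List.ofFn_succ, g0, z, tp_succ] using h4

theorem main :
    ¬ (∀ a b c d : Equiv.Perm (ℕ → Bool),
      (∀ x j, a x j ≠ x j ↔ j = 0) →
      (∀ x j, b x j ≠ x j ↔ ∃ k, j = k + 1 ∧ x k = false ∧ (∀ i < k, x i = true) ∧ k % 3 ≠ 2) →
      (∀ x j, c x j ≠ x j ↔ ∃ k, j = k + 1 ∧ x k = false ∧ (∀ i < k, x i = true) ∧ k % 3 ≠ 1) →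
      (∀ x j, d x j ≠ x j ↔ ∃ k, j = k + 1 ∧ x k = false ∧ (∀ i < k, x i = true) ∧ k % 3 ≠ 0) →
      ∀ G : Subgroup (Equiv.Perm (ℕ → Bool)),
        G = Subgroup.closure ({a, b, c, d} : Set (Equiv.Perm (ℕ → Bool))) →
        ∀ (n : ℕ) (A : Fin n → Subgroup G), (∀ i, (A i).FG) →
          ∀ g : G, (∀ f : Fin n → G, (∀ i, f i ∈ A i) → (List.ofFn f).prod ≠ g) →
            ∃ N : Subgroup G, N.FiniteIndex ∧
              ∀ f : Fin n → G, (∀ i, f i ∈ A i) → ∀ m ∈ N, (List.ofFn f).prod * m ≠ g) := by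
  intro h
  obtain ⟨N, hN, h⟩ := h a b c d a_spec (fl_spec _) (fl_spec _) (fl_spec _) G rfl 2 AA AA_fg g0
    not_prod
  obtain ⟨f, hf, m, hm, e⟩ := near N
  exact h f hf m hm e

end Pool.Agent.H.MP_c3451b_al
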